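import Pool.Agent.KFV.Data.Tab
import Pool.Agent.KFV.Data.Graphs

namespace Pool.Agent.KFV

set_option maxRecDepth 100000 in
theorem chkC0 : ((cores.drop 0).take 12).all (coreOK tree) = true := by decide +kernel

end Pool.Agent.KFV
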