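import Pool.Agent.KFV.Data.Tab
import Pool.Agent.KFV.Data.Graphs
import Pool.Agent.KFV.Chk.C6

namespace Pool.Agent.KFV

set_option maxRecDepth 100000 in
theorem chkC12 : ((cores.drop 103).take 29).all (coreOK tree) = true := by decide +kernel

end Pool.Agent.KFV
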