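import Pool.Agent.KFV.Data.Tab
import Pool.Agent.KFV.Data.Graphs
import Pool.Agent.KFV.Chk.G11

namespace Pool.Agent.KFV

set_option maxRecDepth 100000 in
theorem chkG17 : ((goods.drop 116).take 2).all (goodOK tree) = true := by decide +kernel

end Pool.Agent.KFV
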