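import Pool.Agent.KFV.Data.Graphs

namespace Pool.Agent.KFV

/-- run all closure checks of a chunk of cores -/
def runAll : List Core → List (List ℕ) → Bool
  | [], _ => true
  | _ :: _, [] => false
  | C :: Cs, c :: cs => runC cores goods C.C (combos C) c && runAll Cs cs

theorem runAll_sound : ∀ (Cs : List Core) (cs : List (List ℕ)), runAll Cs cs = true →
    ∀ C ∈ Cs, ∃ certs, runC cores goods C.C (combos C) certs = true := by
  intro Cs
  induction Cs with
  | nil => intro cs _ C hC; simp at hC
  | cons C Cs ih =>
    intro cs h C' hC'
    cases cs with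
    | nil => simp [runAll] at h
    | cons c cs =>
      simp only [runAll, Bool.and_eq_true] at h
      rcases List.mem_cons.1 hC' with rfl | h'
      · exact ⟨c, h.1⟩
      · exact ih cs h.2 C' h'

end Pool.Agent.KFV
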