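import Pool.Agent.KFV.Chk.C0
import Pool.Agent.KFV.Chk.C1
import Pool.Agent.KFV.Chk.C2
import Pool.Agent.KFV.Chk.C3
import Pool.Agent.KFV.Chk.C4
import Pool.Agent.KFV.Chk.C5
import Pool.Agent.KFV.Chk.C6
import Pool.Agent.KFV.Chk.C7
import Pool.Agent.KFV.Chk.C8
import Pool.Agent.KFV.Chk.C9
import Pool.Agent.KFV.Chk.C10
import Pool.Agent.KFV.Chk.C11
import Pool.Agent.KFV.Chk.C12
import Pool.Agent.KFV.Chk.C13
import Pool.Agent.KFV.Chk.C14
import Pool.Agent.KFV.Chk.C15
import Pool.Agent.KFV.Chk.G0
import Pool.Agent.KFV.Chk.G1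
import Pool.Agent.KFV.Chk.G2
import Pool.Agent.KFV.Chk.G3
import Pool.Agent.KFV.Chk.G4
import Pool.Agent.KFV.Chk.G5
import Pool.Agent.KFV.Chk.G6
import Pool.Agent.KFV.Chk.G7
import Pool.Agent.KFV.Chk.G8
import Pool.Agent.KFV.Chk.G9
import Pool.Agent.KFV.Chk.G10
import Pool.Agent.KFV.Chk.G11
import Pool.Agent.KFV.Chk.G12
import Pool.Agent.KFV.Chk.G13
import Pool.Agent.KFV.Chk.G14
import Pool.Agent.KFV.Chk.G15
import Pool.Agent.KFV.Chk.G16
import Pool.Agent.KFV.Chk.G17
import Pool.Agent.KFV.Chk.G18
import Pool.Agent.KFV.Chk.G19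
import Pool.Agent.KFV.Chk.G20
import Pool.Agent.KFV.Chk.G21
import Pool.Agent.KFV.Chk.G22
import Pool.Agent.KFV.Chk.G23
import Pool.Agent.KFV.Chk.G24
import Pool.Agent.KFV.Chk.G25
import Pool.Agent.KFV.Chk.R0
import Pool.Agent.KFV.Chk.R1
import Pool.Agent.KFV.Chk.R2
import Pool.Agent.KFV.Chk.R3
import Pool.Agent.KFV.Chk.R4
import Pool.Agent.KFV.Chk.R5
import Pool.Agent.KFV.Chk.R6
import Pool.Agent.KFV.Chk.R7
import Pool.Agent.KFV.Chk.R8
import Pool.Agent.KFV.Chk.R9
import Pool.Agent.KFV.Chk.R10
import Pool.Agent.KFV.Chk.R11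
import Pool.Agent.KFV.Chk.R12
import Pool.Agent.KFV.Chk.R13
import Pool.Agent.KFV.Chk.R14
import Pool.Agent.KFV.Chk.R15
import Pool.Agent.KFV.Chk.R16
import Pool.Agent.KFV.Chk.R17
import Pool.Agent.KFV.Chk.R18
import Pool.Agent.KFV.Chk.R19
import Pool.Agent.KFV.Chk.R20
import Pool.Agent.KFV.Chk.R21
import Pool.Agent.KFV.Chk.R22
import Pool.Agent.KFV.Chk.R23
import Pool.Agent.KFV.Chk.R24
import Pool.Agent.KFV.Chk.R25
import Pool.Agent.KFV.Chk.R26
import Pool.Agent.KFV.Chk.R27
import Pool.Agent.KFV.Chk.R28
import Pool.Agent.KFV.Chk.R29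
import Pool.Agent.KFV.Chk.R30
import Pool.Agent.KFV.Chk.R31
import Pool.Agent.KFV.Chk.R32
import Pool.Agent.KFV.Chk.R33
import Pool.Agent.KFV.Chk.R34
import Pool.Agent.KFV.Chk.R35
import Pool.Agent.KFV.Chk.R36
import Pool.Agent.KFV.Chk.R37
import Pool.Agent.KFV.Chk.R38
import Pool.Agent.KFV.Chk.R39
import Pool.Agent.KFV.Chk.R40
import Pool.Agent.KFV.Chk.R41
import Pool.Agent.KFV.Chk.R42
import Pool.Agent.KFV.Chk.R43
import Pool.Agent.KFV.Chk.R44
import Pool.Agent.KFV.Chk.R45
import Pool.Agent.KFV.Chk.R46
import Pool.Agent.KFV.Chk.R47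
import Pool.Agent.KFV.Chk.R48
import Pool.Agent.KFV.Chk.R49
import Pool.Agent.KFV.Chk.R50
import Pool.Agent.KFV.Chk.R51

namespace Pool.Agent.KFV

theorem chunk_step {α : Type} {P : α → Prop} (l : List α) (a k : ℕ)
    (h1 : ∀ t ∈ (l.drop a).take k, P t) (h2 : ∀ t ∈ l.drop (a + k), P t) :
    ∀ t ∈ l.drop a, P t := by
  intro t ht
  have e : l.drop a = (l.drop a).take k ++ l.drop (a + k) := by
    conv_lhs => rw [← List.take_append_drop k (l.drop a)]
    rw [List.drop_drop]
  rw [e] at ht
  rcases List.mem_append.1 ht with h | h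
  · exact h1 t h
  · exact h2 t h

theorem of_all {α : Type} {p : α → Bool} {l : List α} (h : l.all p = true) :
    ∀ t ∈ l, p t = true := fun t ht => List.all_eq_true.1 h t ht

set_option maxRecDepth 100000 in
theorem cores_len : cores.length ≤ 195 := by
  have h : Nat.ble cores.length 195 = true := by decide +kernel
  exact Nat.le_of_ble_eq_true h

set_option maxRecDepth 100000 in
theorem goods_len : goods.length ≤ 161 := by
  have h : Nat.ble goods.length 161 = true := by decide +kernel
  exact Nat.le_of_ble_eq_true h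

theorem allC_end : ∀ t ∈ cores.drop 195, coreOK tree t = true := by
  intro t ht
  rw [List.drop_eq_nil_of_le cores_len] at ht
  simp at ht

theorem allC_15 : ∀ t ∈ cores.drop 176, coreOK tree t = true :=
  chunk_step cores 176 19 (of_all chkC15) allC_end

theorem allC_14 : ∀ t ∈ cores.drop 154, coreOK tree t = true :=
  chunk_step cores 154 22 (of_all chkC14) allC_15

theorem allC_13 : ∀ t ∈ cores.drop 132, coreOK tree t = true :=
  chunk_step cores 132 22 (of_all chkC13) allC_14

theorem allC_12 : ∀ t ∈ cores.drop 103, coreOK tree t = true :=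
  chunk_step cores 103 29 (of_all chkC12) allC_13

theorem allC_11 : ∀ t ∈ cores.drop 94, coreOK tree t = true :=
  chunk_step cores 94 9 (of_all chkC11) allC_12

theorem allC_10 : ∀ t ∈ cores.drop 93, coreOK tree t = true :=
  chunk_step cores 93 1 (of_all chkC10) allC_11

theorem allC_9 : ∀ t ∈ cores.drop 91, coreOK tree t = true :=
  chunk_step cores 91 2 (of_all chkC9) allC_10

theorem allC_8 : ∀ t ∈ cores.drop 85, coreOK tree t = true :=
  chunk_step cores 85 6 (of_all chkC8) allC_9

theorem allC_7 : ∀ t ∈ cores.drop 66, coreOK tree t = true :=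
  chunk_step cores 66 19 (of_all chkC7) allC_8

theorem allC_6 : ∀ t ∈ cores.drop 49, coreOK tree t = true :=
  chunk_step cores 49 17 (of_all chkC6) allC_7

theorem allC_5 : ∀ t ∈ cores.drop 39, coreOK tree t = true :=
  chunk_step cores 39 10 (of_all chkC5) allC_6

theorem allC_4 : ∀ t ∈ cores.drop 31, coreOK tree t = true :=
  chunk_step cores 31 8 (of_all chkC4) allC_5

theorem allC_3 : ∀ t ∈ cores.drop 26, coreOK tree t = true :=
  chunk_step cores 26 5 (of_all chkC3) allC_4

theorem allC_2 : ∀ t ∈ cores.drop 22, coreOK tree t = true :=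
  chunk_step cores 22 4 (of_all chkC2) allC_3

theorem allC_1 : ∀ t ∈ cores.drop 12, coreOK tree t = true :=
  chunk_step cores 12 10 (of_all chkC1) allC_2

theorem allC_0 : ∀ t ∈ cores.drop 0, coreOK tree t = true :=
  chunk_step cores 0 12 (of_all chkC0) allC_1

theorem allC : ∀ t ∈ cores, coreOK tree t = true := allC_0

theorem allG_end : ∀ t ∈ goods.drop 161, goodOK tree t = true := by
  intro t ht
  rw [List.drop_eq_nil_of_le goods_len] at ht
  simp at ht

theorem allG_25 : ∀ t ∈ goods.drop 154, goodOK tree t = true :=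
  chunk_step goods 154 7 (of_all chkG25) allG_end

theorem allG_24 : ∀ t ∈ goods.drop 144, goodOK tree t = true :=
  chunk_step goods 144 10 (of_all chkG24) allG_25

theorem allG_23 : ∀ t ∈ goods.drop 141, goodOK tree t = true :=
  chunk_step goods 141 3 (of_all chkG23) allG_24

theorem allG_22 : ∀ t ∈ goods.drop 135, goodOK tree t = true :=
  chunk_step goods 135 6 (of_all chkG22) allG_23

theorem allG_21 : ∀ t ∈ goods.drop 129, goodOK tree t = true :=
  chunk_step goods 129 6 (of_all chkG21) allG_22

theorem allG_20 : ∀ t ∈ goods.drop 127, goodOK tree t = true :=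
  chunk_step goods 127 2 (of_all chkG20) allG_21

theorem allG_19 : ∀ t ∈ goods.drop 126, goodOK tree t = true :=
  chunk_step goods 126 1 (of_all chkG19) allG_20

theorem allG_18 : ∀ t ∈ goods.drop 118, goodOK tree t = true :=
  chunk_step goods 118 8 (of_all chkG18) allG_19

theorem allG_17 : ∀ t ∈ goods.drop 116, goodOK tree t = true :=
  chunk_step goods 116 2 (of_all chkG17) allG_18

theorem allG_16 : ∀ t ∈ goods.drop 110, goodOK tree t = true :=
  chunk_step goods 110 6 (of_all chkG16) allG_17

theorem allG_15 : ∀ t ∈ goods.drop 103, goodOK tree t = true :=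
  chunk_step goods 103 7 (of_all chkG15) allG_16

theorem allG_14 : ∀ t ∈ goods.drop 99, goodOK tree t = true :=
  chunk_step goods 99 4 (of_all chkG14) allG_15

theorem allG_13 : ∀ t ∈ goods.drop 97, goodOK tree t = true :=
  chunk_step goods 97 2 (of_all chkG13) allG_14

theorem allG_12 : ∀ t ∈ goods.drop 92, goodOK tree t = true :=
  chunk_step goods 92 5 (of_all chkG12) allG_13

theorem allG_11 : ∀ t ∈ goods.drop 91, goodOK tree t = true :=
  chunk_step goods 91 1 (of_all chkG11) allG_12

theorem allG_10 : ∀ t ∈ goods.drop 88, goodOK tree t = true :=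
  chunk_step goods 88 3 (of_all chkG10) allG_11

theorem allG_9 : ∀ t ∈ goods.drop 87, goodOK tree t = true :=
  chunk_step goods 87 1 (of_all chkG9) allG_10

theorem allG_8 : ∀ t ∈ goods.drop 81, goodOK tree t = true :=
  chunk_step goods 81 6 (of_all chkG8) allG_9

theorem allG_7 : ∀ t ∈ goods.drop 71, goodOK tree t = true :=
  chunk_step goods 71 10 (of_all chkG7) allG_8

theorem allG_6 : ∀ t ∈ goods.drop 70, goodOK tree t = true :=
  chunk_step goods 70 1 (of_all chkG6) allG_7

theorem allG_5 : ∀ t ∈ goods.drop 68, goodOK tree t = true :=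
  chunk_step goods 68 2 (of_all chkG5) allG_6

theorem allG_4 : ∀ t ∈ goods.drop 56, goodOK tree t = true :=
  chunk_step goods 56 12 (of_all chkG4) allG_5

theorem allG_3 : ∀ t ∈ goods.drop 43, goodOK tree t = true :=
  chunk_step goods 43 13 (of_all chkG3) allG_4

theorem allG_2 : ∀ t ∈ goods.drop 27, goodOK tree t = true :=
  chunk_step goods 27 16 (of_all chkG2) allG_3

theorem allG_1 : ∀ t ∈ goods.drop 11, goodOK tree t = true :=
  chunk_step goods 11 16 (of_all chkG1) allG_2

theorem allG_0 : ∀ t ∈ goods.drop 0, goodOK tree t = true :=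
  chunk_step goods 0 11 (of_all chkG0) allG_1

theorem allG : ∀ t ∈ goods, goodOK tree t = true := allG_0

theorem allR_end : ∀ t ∈ cores.drop 195, ∃ certs, runC cores goods t.C (combos t) certs = true := by
  intro t ht
  rw [List.drop_eq_nil_of_le cores_len] at ht
  simp at ht

theorem allR_51 : ∀ t ∈ cores.drop 183, ∃ certs, runC cores goods t.C (combos t) certs = true :=
  chunk_step cores 183 12 (runAll_sound _ _ chkR51) allR_end

theorem allR_50 : ∀ t ∈ cores.drop 176, ∃ certs, runC cores goods t.C (combos t) certs = true :=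
  chunk_step cores 176 7 (runAll_sound _ _ chkR50) allR_51

theorem allR_49 : ∀ t ∈ cores.drop 166, ∃ certs, runC cores goods t.C (combos t) certs = true :=
  chunk_step cores 166 10 (runAll_sound _ _ chkR49) allR_50

theorem allR_48 : ∀ t ∈ cores.drop 159, ∃ certs, runC cores goods t.C (combos t) certs = true :=
  chunk_step cores 159 7 (runAll_sound _ _ chkR48) allR_49

theorem allR_47 : ∀ t ∈ cores.drop 154, ∃ certs, runC cores goods t.C (combos t) certs = true :=
  chunk_step cores 154 5 (runAll_sound _ _ chkR47) allR_48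

theorem allR_46 : ∀ t ∈ cores.drop 149, ∃ certs, runC cores goods t.C (combos t) certs = true :=
  chunk_step cores 149 5 (runAll_sound _ _ chkR46) allR_47

theorem allR_45 : ∀ t ∈ cores.drop 142, ∃ certs, runC cores goods t.C (combos t) certs = true :=
  chunk_step cores 142 7 (runAll_sound _ _ chkR45) allR_46

theorem allR_44 : ∀ t ∈ cores.drop 134, ∃ certs, runC cores goods t.C (combos t) certs = true :=
  chunk_step cores 134 8 (runAll_sound _ _ chkR44) allR_45

theorem allR_43 : ∀ t ∈ cores.drop 126, ∃ certs, runC cores goods t.C (combos t) certs = true :=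
  chunk_step cores 126 8 (runAll_sound _ _ chkR43) allR_44

theorem allR_42 : ∀ t ∈ cores.drop 119, ∃ certs, runC cores goods t.C (combos t) certs = true :=
  chunk_step cores 119 7 (runAll_sound _ _ chkR42) allR_43

theorem allR_41 : ∀ t ∈ cores.drop 112, ∃ certs, runC cores goods t.C (combos t) certs = true :=
  chunk_step cores 112 7 (runAll_sound _ _ chkR41) allR_42

theorem allR_40 : ∀ t ∈ cores.drop 108, ∃ certs, runC cores goods t.C (combos t) certs = true :=
  chunk_step cores 108 4 (runAll_sound _ _ chkR40) allR_41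

theorem allR_39 : ∀ t ∈ cores.drop 104, ∃ certs, runC cores goods t.C (combos t) certs = true :=
  chunk_step cores 104 4 (runAll_sound _ _ chkR39) allR_40

theorem allR_38 : ∀ t ∈ cores.drop 98, ∃ certs, runC cores goods t.C (combos t) certs = true :=
  chunk_step cores 98 6 (runAll_sound _ _ chkR38) allR_39

theorem allR_37 : ∀ t ∈ cores.drop 95, ∃ certs, runC cores goods t.C (combos t) certs = true :=
  chunk_step cores 95 3 (runAll_sound _ _ chkR37) allR_38

theorem allR_36 : ∀ t ∈ cores.drop 93, ∃ certs, runC cores goods t.C (combos t) certs = true :=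
  chunk_step cores 93 2 (runAll_sound _ _ chkR36) allR_37

theorem allR_35 : ∀ t ∈ cores.drop 91, ∃ certs, runC cores goods t.C (combos t) certs = true :=
  chunk_step cores 91 2 (runAll_sound _ _ chkR35) allR_36

theorem allR_34 : ∀ t ∈ cores.drop 89, ∃ certs, runC cores goods t.C (combos t) certs = true :=
  chunk_step cores 89 2 (runAll_sound _ _ chkR34) allR_35

theorem allR_33 : ∀ t ∈ cores.drop 88, ∃ certs, runC cores goods t.C (combos t) certs = true :=
  chunk_step cores 88 1 (runAll_sound _ _ chkR33) allR_34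

theorem allR_32 : ∀ t ∈ cores.drop 85, ∃ certs, runC cores goods t.C (combos t) certs = true :=
  chunk_step cores 85 3 (runAll_sound _ _ chkR32) allR_33

theorem allR_31 : ∀ t ∈ cores.drop 79, ∃ certs, runC cores goods t.C (combos t) certs = true :=
  chunk_step cores 79 6 (runAll_sound _ _ chkR31) allR_32

theorem allR_30 : ∀ t ∈ cores.drop 74, ∃ certs, runC cores goods t.C (combos t) certs = true :=
  chunk_step cores 74 5 (runAll_sound _ _ chkR30) allR_31

theorem allR_29 : ∀ t ∈ cores.drop 68, ∃ certs, runC cores goods t.C (combos t) certs = true :=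
  chunk_step cores 68 6 (runAll_sound _ _ chkR29) allR_30

theorem allR_28 : ∀ t ∈ cores.drop 64, ∃ certs, runC cores goods t.C (combos t) certs = true :=
  chunk_step cores 64 4 (runAll_sound _ _ chkR28) allR_29

theorem allR_27 : ∀ t ∈ cores.drop 60, ∃ certs, runC cores goods t.C (combos t) certs = true :=
  chunk_step cores 60 4 (runAll_sound _ _ chkR27) allR_28

theorem allR_26 : ∀ t ∈ cores.drop 57, ∃ certs, runC cores goods t.C (combos t) certs = true :=
  chunk_step cores 57 3 (runAll_sound _ _ chkR26) allR_27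

theorem allR_25 : ∀ t ∈ cores.drop 55, ∃ certs, runC cores goods t.C (combos t) certs = true :=
  chunk_step cores 55 2 (runAll_sound _ _ chkR25) allR_26

theorem allR_24 : ∀ t ∈ cores.drop 51, ∃ certs, runC cores goods t.C (combos t) certs = true :=
  chunk_step cores 51 4 (runAll_sound _ _ chkR24) allR_25

theorem allR_23 : ∀ t ∈ cores.drop 48, ∃ certs, runC cores goods t.C (combos t) certs = true :=
  chunk_step cores 48 3 (runAll_sound _ _ chkR23) allR_24

theorem allR_22 : ∀ t ∈ cores.drop 46, ∃ certs, runC cores goods t.C (combos t) certs = true :=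
  chunk_step cores 46 2 (runAll_sound _ _ chkR22) allR_23

theorem allR_21 : ∀ t ∈ cores.drop 44, ∃ certs, runC cores goods t.C (combos t) certs = true :=
  chunk_step cores 44 2 (runAll_sound _ _ chkR21) allR_22

theorem allR_20 : ∀ t ∈ cores.drop 41, ∃ certs, runC cores goods t.C (combos t) certs = true :=
  chunk_step cores 41 3 (runAll_sound _ _ chkR20) allR_21

theorem allR_19 : ∀ t ∈ cores.drop 38, ∃ certs, runC cores goods t.C (combos t) certs = true :=
  chunk_step cores 38 3 (runAll_sound _ _ chkR19) allR_20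

theorem allR_18 : ∀ t ∈ cores.drop 34, ∃ certs, runC cores goods t.C (combos t) certs = true :=
  chunk_step cores 34 4 (runAll_sound _ _ chkR18) allR_19

theorem allR_17 : ∀ t ∈ cores.drop 30, ∃ certs, runC cores goods t.C (combos t) certs = true :=
  chunk_step cores 30 4 (runAll_sound _ _ chkR17) allR_18

theorem allR_16 : ∀ t ∈ cores.drop 28, ∃ certs, runC cores goods t.C (combos t) certs = true :=
  chunk_step cores 28 2 (runAll_sound _ _ chkR16) allR_17

theorem allR_15 : ∀ t ∈ cores.drop 26, ∃ certs, runC cores goods t.C (combos t) certs = true :=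
  chunk_step cores 26 2 (runAll_sound _ _ chkR15) allR_16

theorem allR_14 : ∀ t ∈ cores.drop 25, ∃ certs, runC cores goods t.C (combos t) certs = true :=
  chunk_step cores 25 1 (runAll_sound _ _ chkR14) allR_15

theorem allR_13 : ∀ t ∈ cores.drop 24, ∃ certs, runC cores goods t.C (combos t) certs = true :=
  chunk_step cores 24 1 (runAll_sound _ _ chkR13) allR_14

theorem allR_12 : ∀ t ∈ cores.drop 23, ∃ certs, runC cores goods t.C (combos t) certs = true :=
  chunk_step cores 23 1 (runAll_sound _ _ chkR12) allR_13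

theorem allR_11 : ∀ t ∈ cores.drop 21, ∃ certs, runC cores goods t.C (combos t) certs = true :=
  chunk_step cores 21 2 (runAll_sound _ _ chkR11) allR_12

theorem allR_10 : ∀ t ∈ cores.drop 17, ∃ certs, runC cores goods t.C (combos t) certs = true :=
  chunk_step cores 17 4 (runAll_sound _ _ chkR10) allR_11

theorem allR_9 : ∀ t ∈ cores.drop 14, ∃ certs, runC cores goods t.C (combos t) certs = true :=
  chunk_step cores 14 3 (runAll_sound _ _ chkR9) allR_10

theorem allR_8 : ∀ t ∈ cores.drop 12, ∃ certs, runC cores goods t.C (combos t) certs = true :=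
  chunk_step cores 12 2 (runAll_sound _ _ chkR8) allR_9

theorem allR_7 : ∀ t ∈ cores.drop 10, ∃ certs, runC cores goods t.C (combos t) certs = true :=
  chunk_step cores 10 2 (runAll_sound _ _ chkR7) allR_8

theorem allR_6 : ∀ t ∈ cores.drop 9, ∃ certs, runC cores goods t.C (combos t) certs = true :=
  chunk_step cores 9 1 (runAll_sound _ _ chkR6) allR_7

theorem allR_5 : ∀ t ∈ cores.drop 8, ∃ certs, runC cores goods t.C (combos t) certs = true :=
  chunk_step cores 8 1 (runAll_sound _ _ chkR5) allR_6

theorem allR_4 : ∀ t ∈ cores.drop 6, ∃ certs, runC cores goods t.C (combos t) certs = true :=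
  chunk_step cores 6 2 (runAll_sound _ _ chkR4) allR_5

theorem allR_3 : ∀ t ∈ cores.drop 4, ∃ certs, runC cores goods t.C (combos t) certs = true :=
  chunk_step cores 4 2 (runAll_sound _ _ chkR3) allR_4

theorem allR_2 : ∀ t ∈ cores.drop 3, ∃ certs, runC cores goods t.C (combos t) certs = true :=
  chunk_step cores 3 1 (runAll_sound _ _ chkR2) allR_3

theorem allR_1 : ∀ t ∈ cores.drop 2, ∃ certs, runC cores goods t.C (combos t) certs = true :=
  chunk_step cores 2 1 (runAll_sound _ _ chkR1) allR_2

theorem allR_0 : ∀ t ∈ cores.drop 0, ∃ certs, runC cores goods t.C (combos t) certs = true :=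
  chunk_step cores 0 2 (runAll_sound _ _ chkR0) allR_1

theorem allR : ∀ t ∈ cores, ∃ certs, runC cores goods t.C (combos t) certs = true := allR_0

theorem cores_wf : ∀ C ∈ cores, C.C.Wf := by
  have h : cores.all (fun C => decide C.C.Wf) = true := by decide +kernel
  intro C hC
  exact of_decide_eq_true (List.all_eq_true.1 h C hC)

theorem goods_wf : ∀ C ∈ goods, C.Wf := by
  have h : goods.all (fun C => decide C.Wf) = true := by decide +kernel
  intro C hC
  exact of_decide_eq_true (List.all_eq_true.1 h C hC)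

theorem cores_em : ∃ C ∈ cores, C.C.m = 0 ∧ C.C.E = [] := by
  have h : cores.any (fun C => Nat.beq C.C.m 0 && C.C.E.isEmpty) = true := by decide +kernel
  obtain ⟨C, hC, h1⟩ := List.any_eq_true.1 h
  refine ⟨C, hC, ?_⟩
  simpa [Nat.beq_eq] using h1

theorem cores_deg : ∀ C ∈ cores, ∀ i < C.C.m, 1 ≤ degM (adjM C.C.E) C.C.m i := by
  have h : cores.all (fun C => (List.range C.C.m).all (fun i =>
      Nat.ble 1 (degM (adjM C.C.E) C.C.m i))) = true := by decide +kernel
  intro C hC i hi
  exact Nat.le_of_ble_eq_true (List.all_eq_true.1 (List.all_eq_true.1 h C hC) i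
    (List.mem_range.2 hi))

theorem cores_K : ∀ C ∈ cores, C.C.m + 1 + C.K ≤ 16 := by
  have h : cores.all (fun C => Nat.ble (C.C.m + 1 + C.K) 16) = true := by decide +kernel
  intro C hC
  exact Nat.le_of_ble_eq_true (List.all_eq_true.1 h C hC)

end Pool.Agent.KFV
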