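import Pool.Agent.KFV.Data.Certs
import Pool.Agent.KFV.Chk.Run
import Pool.Agent.KFV.Chk.R41

namespace Pool.Agent.KFV

set_option maxRecDepth 100000 in
theorem chkR47 : runAll ((cores.drop 154).take 5) ((certsAll.drop 154).take 5) = true := by
  decide +kernel

end Pool.Agent.KFV
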