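import Pool.Agent.KFV.Data.Tab

namespace Pool.Agent.KFV

/-- the keys are pairwise distinct -/
def injT : List Ent → Bool
  | [] => true
  | t :: ts => ts.all (fun t' => !(Nat.beq t.r t'.r && Nat.beq t.e t'.e && Nat.beq t.s t'.s &&
      Nat.beq t.x t'.x)) && injT ts

/-- one entry against all -/
def gbT (l : List Ent) (t : Ent) : Bool :=
  (List.range 5).all (fun k => l.all (fun t' =>
    !(Nat.ble (Nat.add t.r k) t'.r && Nat.ble (Nat.add t.e (Nat.mul 2 k)) t'.e &&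
      Nat.ble (Nat.add t.s k) t'.s && Nat.ble (Nat.add t.x (Nat.mul 18 k)) t'.x) ||
      Nat.ble t'.mx (t.g k)))

/-- rank, digits -/
def locT (t : Ent) : Bool :=
  Nat.ble t.r 4 && (List.range 5).all (fun i => Nat.ble (Nat.add t.r i) 4 ||
      (Nat.beq (fld t.pp (2 * i)) (fld t.pp (2 * i + 1)))) &&
  (List.range 5).all (fun i => Nat.beq (fld t.pm (2 * i)) (fld t.pp (2 * i + 1)) &&
      Nat.beq (fld t.pm (2 * i + 1)) (fld t.pp (2 * i)) &&
      Nat.beq (fld t.pm (10 + i)) (fld t.pp (10 + i))) &&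
  Nat.blt t.pp (Nat.pow BB 15) && Nat.blt t.pm (Nat.pow BB 15) &&
  (List.range 15).all (fun q => Nat.blt (fld t.pp q) (Nat.pow 2 70))

/-- the empty graph -/
def emT (l : List Ent) : Bool :=
  l.any (fun t => Nat.beq t.r 0 && Nat.beq t.e 0 && Nat.beq t.s 0 && Nat.beq t.x 0 &&
    Nat.beq (fld t.pp 0) (1023 * LL) && Nat.beq (fld t.pp 1) 0)

theorem injT_sound : ∀ l : List Ent, injT l = true →
    l.Pairwise (fun t t' => ¬ (t.r = t'.r ∧ t.e = t'.e ∧ t.s = t'.s ∧ t.x = t'.x)) := by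
  intro l
  induction l with
  | nil => intro _; exact List.Pairwise.nil
  | cons t ts ih =>
    intro h
    simp only [injT, Bool.and_eq_true] at h
    refine List.Pairwise.cons ?_ (ih h.2)
    intro t' ht' hh
    have h1 := List.all_eq_true.1 h.1 t' ht'
    obtain ⟨a, b, c, d⟩ := hh
    simp [a, b, c, d] at h1

theorem gbT_sound (l : List Ent) (t : Ent) (h : gbT l t = true) : ∀ k < 5, ∀ t' ∈ l,
    t.r + k ≤ t'.r → t.e + 2 * k ≤ t'.e → t.s + k ≤ t'.s → t.x + 18 * k ≤ t'.x →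
      t'.mx ≤ t.g k := by
  intro k hk t' ht' h1 h2 h3 h4
  have h5 := List.all_eq_true.1 (List.all_eq_true.1 h k (List.mem_range.2 hk)) t' ht'
  have e1 : Nat.ble (Nat.add t.r k) t'.r = true := Nat.ble_eq_true_of_le h1
  have e2 : Nat.ble (Nat.add t.e (Nat.mul 2 k)) t'.e = true := Nat.ble_eq_true_of_le h2
  have e3 : Nat.ble (Nat.add t.s k) t'.s = true := Nat.ble_eq_true_of_le h3
  have e4 : Nat.ble (Nat.add t.x (Nat.mul 18 k)) t'.x = true := Nat.ble_eq_true_of_le h4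
  rw [e1, e2, e3, e4] at h5
  exact Nat.le_of_ble_eq_true h5

theorem tabOK_of (l : List Ent) (h1 : injT l = true) (h2 : ∀ t ∈ l, gbT l t = true)
    (h3 : l.all locT = true) (h4 : emT l = true) : TabOK l := by
  have hloc : ∀ t ∈ l, locT t = true := fun t ht => List.all_eq_true.1 h3 t ht
  refine ⟨?_, ?_, injT_sound l h1, ?_, ?_, ?_, ?_⟩
  · intro t ht i hi
    have h := hloc t ht
    simp only [locT, Bool.and_eq_true] at h
    obtain ⟨⟨⟨⟨⟨_, hb⟩, _⟩, _⟩, _⟩, _⟩ := h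
    unfold Ent.h
    split_ifs with h5
    · have h6 := List.all_eq_true.1 hb i (List.mem_range.2 h5)
      simp only [Bool.or_eq_true, Nat.ble_eq, Nat.beq_eq] at h6
      rcases h6 with h6 | h6
      · exfalso
        have : t.r + i ≤ 4 := h6
        omega
      · rw [h6]; simp
    · rfl
  · intro t ht
    have h := hloc t ht
    simp only [locT, Bool.and_eq_true] at h
    obtain ⟨⟨⟨⟨⟨ha, _⟩, _⟩, _⟩, _⟩, _⟩ := h
    exact Nat.le_of_ble_eq_true ha
  · intro t ht
    exact gbT_sound l t (h2 t ht)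
  · intro t ht i hi
    have h := hloc t ht
    simp only [locT, Bool.and_eq_true] at h
    obtain ⟨⟨⟨⟨⟨_, _⟩, hc⟩, _⟩, _⟩, _⟩ := h
    have h6 := List.all_eq_true.1 hc i (List.mem_range.2 hi)
    simp only [Bool.and_eq_true, Nat.beq_eq] at h6
    exact ⟨h6.1.1, h6.1.2, h6.2⟩
  · intro t ht
    have h := hloc t ht
    simp only [locT, Bool.and_eq_true] at h
    obtain ⟨⟨⟨⟨⟨_, _⟩, _⟩, hd⟩, he⟩, hf⟩ := h
    have hd' : t.pp < BB ^ 15 := of_decide_eq_true (by simpa [Nat.blt_eq] using hd)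
    have he' : t.pm < BB ^ 15 := of_decide_eq_true (by simpa [Nat.blt_eq] using he)
    refine ⟨hd', he', ?_⟩
    intro q hq
    have h6 := List.all_eq_true.1 hf q (List.mem_range.2 hq)
    have h7 : fld t.pp q < Nat.pow 2 70 := by simpa [Nat.blt_eq] using h6
    exact h7
  · obtain ⟨t, ht, h⟩ := List.any_eq_true.1 h4
    simp only [Bool.and_eq_true, Nat.beq_eq] at h
    obtain ⟨⟨⟨⟨⟨a, b⟩, c⟩, d⟩, e⟩, f⟩ := h
    refine ⟨t, ht, a, b, c, d, ?_⟩
    unfold Ent.h
    rw [if_pos (by norm_num)]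
    have e' : fld t.pp (2 * 0) = 1023 * LL := e
    have f' : fld t.pp (2 * 0 + 1) = 0 := f
    rw [e', f']
    push_cast
    ring

end Pool.Agent.KFV
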