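import Pool.Agent.KFV.Chk.Gb0
import Pool.Agent.KFV.Chk.Gb1
import Pool.Agent.KFV.Chk.Gb2
import Pool.Agent.KFV.Chk.Gb3

namespace Pool.Agent.KFV

theorem split4 {α : Type} (l : List α) (h : l.length ≤ 240) (t : α) (ht : t ∈ l) :
    t ∈ (l.drop 0).take 60 ∨ t ∈ (l.drop 60).take 60 ∨ t ∈ (l.drop 120).take 60 ∨
      t ∈ (l.drop 180).take 60 := by
  have e3 : (l.drop 180).take 60 = l.drop 180 := by
    apply List.take_of_length_le
    rw [List.length_drop]; omega
  have e0 : l = (l.drop 0).take 60 ++ ((l.drop 60).take 60 ++ ((l.drop 120).take 60 ++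
      (l.drop 180).take 60)) := by
    rw [e3]
    have a1 : l.drop 120 = (l.drop 120).take 60 ++ l.drop 180 := by
      conv_lhs => rw [← List.take_append_drop 60 (l.drop 120)]
      rw [List.drop_drop]
    have a2 : l.drop 60 = (l.drop 60).take 60 ++ l.drop 120 := by
      conv_lhs => rw [← List.take_append_drop 60 (l.drop 60)]
      rw [List.drop_drop]
    rw [← a1, ← a2, List.drop_zero, List.take_append_drop]
  rw [e0] at ht
  simpa only [List.mem_append] using ht

set_option maxRecDepth 100000 in
theorem tabL_len : tabL.length ≤ 240 := by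
  have h : Nat.ble tabL.length 240 = true := by decide +kernel
  exact Nat.le_of_ble_eq_true h

theorem tabL_split (t : Ent) (h : t ∈ tabL) : t ∈ (tabL.drop 0).take 60 ∨ t ∈ (tabL.drop 60).take 60
    ∨ t ∈ (tabL.drop 120).take 60 ∨ t ∈ (tabL.drop 180).take 60 := split4 tabL tabL_len t h

theorem tabOK : TabOK tree.toL := by
  rw [tab_eq]
  refine tabOK_of tabL tabL_inj ?_ tabL_loc tabL_em
  intro t ht
  rcases tabL_split t ht with h | h | h | h
  · exact List.all_eq_true.1 gb0 t h
  · exact List.all_eq_true.1 gb1 t h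
  · exact List.all_eq_true.1 gb2 t h
  · exact List.all_eq_true.1 gb3 t h

end Pool.Agent.KFV
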