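import Pool.Agent.KFV.Chk.TabChk

namespace Pool.Agent.KFV

/-- the table as an explicit list -/
def tabL : List Ent := [
  en0, en1, en2, en3, en4, en5, en6, en7, en8, en9, en10, en11, en12, en13, en14, en15, en16, en17, en18, en19, en20, en21, en22, en23, en24, en25, en26, en27, en28, en29, en30, en31, en32, en33, en34, en35, en36, en37, en38, en39, en40, en41, en42, en43, en44, en45, en46, en47, en48, en49, en50, en51, en52, en53, en54, en55, en56, en57, en58, en59, en60, en61, en62, en63, en64, en65, en66, en67, en68, en69, en70, en71, en72, en73, en74, en75, en76, en77, en78, en79, en80, en81, en82, en83, en84, en85, en86, en87, en88, en89, en90, en91, en92, en93, en94, en95, en96, en97, en98, en99, en100, en101, en102, en103, en104, en105, en106, en107, en108, en109, en110, en111, en112, en113, en114, en115, en116, en117, en118, en119, en120, en121, en122, en123, en124, en125, en126, en127, en128, en129, en130, en131, en132, en133, en134, en135, en136, en137, en138, en139, en140, en141, en142, en143, en144, en145, en146, en147, en148, en149, en150, en151, en152, en153, en154, en155, en156, en157, en158, en159, en160, en161, en162, en163, en164, en165, en166, en167, en168, en169, en170, en171, en172, en173, en174, en175, en176, en177, en178, en179, en180, en181,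 en182, en183, en184, en185, en186, en187, en188, en189, en190, en191, en192, en193, en194, en195, en196, en197, en198, en199, en200, en201, en202, en203, en204, en205, en206, en207, en208, en209, en210, en211, en212, en213, en214, en215, en216, en217, en218, en219, en220, en221, en222, en223, en224, en225, en226, en227, en228, en229, en230, en231, en232, en233]

set_option maxRecDepth 100000 in
theorem tab_eq : tree.toL = tabL := rfl

set_option maxRecDepth 100000 in
theorem tabL_inj : injT tabL = true := by decide +kernel

set_option maxRecDepth 100000 in
theorem tabL_loc : tabL.all locT = true := by decide +kernel

set_option maxRecDepth 100000 in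
theorem tabL_em : emT tabL = true := by decide +kernel

end Pool.Agent.KFV
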