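import Pool.Agent.KFV.Data.Types
import Pool.Agent.KFV.Data.Tab

namespace Pool.Agent.KFV

/-- check the extensions of all types -/
def extAll : List CC → List (List ℕ) → Bool
  | [], _ => true
  | _ :: _, [] => false
  | D :: Ds, c :: cs => extOK ctypes (extC D) c && extAll Ds cs

theorem extAll_sound : ∀ (Ds : List CC) (cs : List (List ℕ)), extAll Ds cs = true →
    ∀ D ∈ Ds, ∃ ns, extOK ctypes (extC D) ns = true := by
  intro Ds
  induction Ds with
  | nil => intro cs _ D hD; simp at hD
  | cons D Ds ih =>
    intro cs h D' hD'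
    cases cs with
    | nil => simp [extAll] at h
    | cons c cs =>
      simp only [extAll, Bool.and_eq_true] at h
      rcases List.mem_cons.1 hD' with rfl | h'
      · exact ⟨c, h.1⟩
      · exact ih cs h.2 D' h'

set_option maxRecDepth 100000 in
theorem chkLA : ctypes.all (laOK tree) = true := by decide +kernel

set_option maxRecDepth 100000 in
theorem chkExt : extAll ctypes ccerts = true := by decide +kernel

theorem ctypes_wf : ∀ D ∈ ctypes, D.Wf := by
  have h : ctypes.all (fun D => decide D.Wf) = true := by decide +kernel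
  intro D hD
  exact of_decide_eq_true (List.all_eq_true.1 h D hD)

theorem ctypes_cov : ∀ D ∈ ctypes, ∀ i < D.C.m, ∃ p ∈ D.C.E, p.1 = i ∨ p.2 = i := by
  have h : ctypes.all (fun D => (List.range D.C.m).all (fun i =>
      D.C.E.any (fun p => Nat.beq p.1 i || Nat.beq p.2 i))) = true := by decide +kernel
  intro D hD i hi
  have h1 := List.all_eq_true.1 h D hD
  have h2 := List.all_eq_true.1 h1 i (List.mem_range.2 hi)
  obtain ⟨p, hp, h3⟩ := List.any_eq_true.1 h2
  refine ⟨p, hp, ?_⟩
  simpa [Nat.beq_eq] using h3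

theorem ctypes_em : ∃ D ∈ ctypes, D.C.m = 0 ∧ D.C.E = [] := by
  have h : ctypes.any (fun D => Nat.beq D.C.m 0 && D.C.E.isEmpty) = true := by decide +kernel
  obtain ⟨D, hD, h1⟩ := List.any_eq_true.1 h
  refine ⟨D, hD, ?_⟩
  simpa [Nat.beq_eq] using h1

end Pool.Agent.KFV
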